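import Pool.Agent.N662.FP.Stm

/-!
# FL/E1: covering of the inner event by one-point events (helper135 for helper662)
-/

set_option autoImplicit false

open MeasureTheory ProbabilityTheory Filter Set
open scoped ENNReal Pointwise Topology

namespace Pool.Agent.N135.FL

open Pool.Agent.N662.FP

theorem t_E1 (h : S_NORM) : S_E1 := by
  classical
  intro μ hμ
  obtain ⟨c, C, hc, hC, hcC⟩ := h μ hμ
  refine ⟨C, (2 * ((1 + C) / c) + 3) ^ 2, hC, by positivity, fun κ t hκ ht => ?_⟩
  have ht0 : 0 < t := by linarith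
  have ha : (1 - t ^ (-κ)) * t = t - t ^ (1 - κ) := by
    have h1 : t ^ (1 - κ) = t ^ (-κ) * t := by
      rw [show 1 - κ = -κ + 1 by ring, Real.rpow_add ht0, Real.rpow_one]
    rw [h1]
    ring
  have ha0 : 0 ≤ (1 - t ^ (-κ)) * t := by
    have h1 : t ^ (-κ) ≤ 1 := Real.rpow_le_one_of_one_le_of_nonpos ht (by linarith)
    exact mul_nonneg (by linarith) ht0.le
  set N : ℕ := ⌈(t + C) / c⌉₊ with hN
  have hN1 : (t + C) / c ≤ N := Nat.le_ceil _
  have hN2 : (N : ℝ) < (t + C) / c + 1 := Nat.ceil_lt_add_one (by positivity)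
  refine ⟨((Finset.Icc (-(N : ℤ)) N) ×ˢ (Finset.Icc (-(N : ℤ)) N)).filter
    fun v => μ (em v) ≤ t - t ^ (1 - κ) + C, ?_, fun v hv => (Finset.mem_filter.1 hv).2, ?_⟩
  · have h1 : ((((Finset.Icc (-(N : ℤ)) N) ×ˢ (Finset.Icc (-(N : ℤ)) N)).filter
        fun v => μ (em v) ≤ t - t ^ (1 - κ) + C).card : ℝ) ≤ (2 * (N : ℝ) + 1) ^ 2 := by
      have h2 := Finset.card_filter_le ((Finset.Icc (-(N : ℤ)) N) ×ˢ (Finset.Icc (-(N : ℤ)) N))
        (fun v => μ (em v) ≤ t - t ^ (1 - κ) + C)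
      rw [Finset.card_product, Int.card_Icc] at h2
      have h3 : ((N : ℤ) + 1 - (-(N : ℤ))).toNat = 2 * N + 1 := by omega
      rw [h3] at h2
      have h4 : ((((Finset.Icc (-(N : ℤ)) N) ×ˢ (Finset.Icc (-(N : ℤ)) N)).filter
        fun v => μ (em v) ≤ t - t ^ (1 - κ) + C).card : ℝ) ≤
          (((2 * N + 1) * (2 * N + 1) : ℕ) : ℝ) := by exact_mod_cast h2
      refine h4.trans (le_of_eq ?_)
      push_cast
      ring
    refine h1.trans ?_
    rw [← mul_pow]
    refine pow_le_pow_left₀ (by positivity) ?_ 2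
    have h5 : (t + C) / c ≤ (1 + C) / c * t := by
      rw [div_mul_eq_mul_div]
      refine div_le_div_of_nonneg_right ?_ hc.le
      nlinarith
    nlinarith
  · intro Ω T ω hω
    obtain ⟨y, hy, hyF⟩ := not_subset.1 hω
    obtain ⟨z, hz, rfl⟩ := hy
    set y : ℝ × ℝ := ((1 - t ^ (-κ)) * t) • z with hyd
    have hz1 : μ z ≤ 1 := hz
    have hμy : μ y ≤ t - t ^ (1 - κ) := by
      rw [hyd, map_smul_eq_mul, Real.norm_eq_abs, abs_of_nonneg ha0, ha]
      rw [ha] at ha0
      nlinarith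
    have hr1 : |y.1 - (round y.1 : ℝ)| ≤ 1 / 2 := abs_sub_round y.1
    have hr2 : |y.2 - (round y.2 : ℝ)| ≤ 1 / 2 := abs_sub_round y.2
    have hT : t < T ω (round y.1, round y.2) := by
      by_contra hcon
      exact hyF ⟨(round y.1, round y.2), not_lt.1 hcon, hr1, hr2⟩
    have hμv : μ (em (round y.1, round y.2)) ≤ t - t ^ (1 - κ) + C := by
      have h1 : μ (em (round y.1, round y.2)) ≤ μ y + μ (em (round y.1, round y.2) - y) := by
        have := map_add_le_add μ y (em (round y.1, round y.2) - y)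
        rwa [add_sub_cancel] at this
      have h2 : μ (em (round y.1, round y.2) - y) ≤ C * (1 / 2) := by
        refine (hcC _).2.trans (mul_le_mul_of_nonneg_left ?_ hC.le)
        refine max_le ?_ ?_
        · show |(round y.1 : ℝ) - y.1| ≤ 1 / 2
          rw [abs_sub_comm]
          exact hr1
        · show |(round y.2 : ℝ) - y.2| ≤ 1 / 2
          rw [abs_sub_comm]
          exact hr2
      linarith
    have hbox : max |(round y.1 : ℝ)| |(round y.2 : ℝ)| ≤ N := by
      have h1 : c * max |(round y.1 : ℝ)| |(round y.2 : ℝ)| ≤ μ (em (round y.1, round y.2)) :=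
        (hcC (em (round y.1, round y.2))).1
      have h2 : 0 ≤ t ^ (1 - κ) := Real.rpow_nonneg ht0.le _
      refine le_trans ?_ hN1
      rw [le_div_iff₀ hc]
      linarith
    have hb1 := abs_le.1 ((le_max_left _ _).trans hbox)
    have hb2 := abs_le.1 ((le_max_right _ _).trans hbox)
    refine mem_iUnion₂.2 ⟨(round y.1, round y.2), Finset.mem_filter.2 ⟨Finset.mem_product.2
      ⟨Finset.mem_Icc.2 ⟨?_, ?_⟩, Finset.mem_Icc.2 ⟨?_, ?_⟩⟩, hμv⟩, hT⟩
    · exact_mod_cast hb1.1
    · exact_mod_cast hb1.2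
    · exact_mod_cast hb2.1
    · exact_mod_cast hb2.2

end Pool.Agent.N135.FL
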